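import Pool.Agent.H101Z.SD.Main

set_option autoImplicit false

namespace Pool.Agent.H101Z.SD

open MvPolynomial RingTheory.Sequence

section

variable {R : Type} [CommRing R]

theorem mem_smul_top (J I : Ideal R) (x : R) :
    Ideal.Quotient.mk J x ∈ (I • ⊤ : Submodule R (R ⧸ J)) ↔ x ∈ J ⊔ I := by
  have h1 : (I • ⊤ : Submodule R (R ⧸ J)) = Submodule.map J.mkQ I := by
    rw [← Submodule.range_mkQ (p := J), ← Submodule.map_top, ← Submodule.map_smul'', smul_eq_mul,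
      Ideal.mul_top]
  have h2 : x ∈ Submodule.comap J.mkQ (Submodule.map J.mkQ I) ↔ x ∈ J ⊔ I := by
    rw [Submodule.comap_map_mkQ]
  rw [h1]
  exact h2

theorem reg_iff (J I : Ideal R) (r : R) :
    IsSMulRegular ((R ⧸ J) ⧸ (I • ⊤ : Submodule R (R ⧸ J))) r ↔
      ∀ x, r * x ∈ J ⊔ I → x ∈ J ⊔ I := by
  rw [isSMulRegular_quotient_iff_mem_of_smul_mem, Ideal.Quotient.mk_surjective.forall]
  refine forall_congr' fun x => ?_
  rw [mem_smul_top, ← mem_smul_top J I (r * x)]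
  rfl

theorem top_ne (J I : Ideal R) (h : (1 : R) ∉ J ⊔ I) : (⊤ : Submodule R (R ⧸ J)) ≠ I • ⊤ :=
  fun h1 => h ((mem_smul_top J I 1).mp (h1 ▸ Submodule.mem_top))

end

variable {k : Type} [Field k] {z : Fin 3 → k}

def DS (I : Ideal (S k)) : Set ℕ := {m : ℕ | ∃ rs : List (S k), rs.length = m ∧
  (∀ r ∈ rs, constantCoeff r = 0) ∧ IsRegular (S k ⧸ I) rs}

theorem one_not {t : ℕ} (ht : 1 ≤ t) {rs : List (S k)} (h : ∀ r ∈ rs, constantCoeff r = 0) :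
    (1 : S k) ∉ J z t ⊔ Ideal.ofList rs := fun h1 => by
  have h2 : J z t ⊔ Ideal.ofList rs ≤ RingHom.ker (constantCoeff : S k →+* k) := by
    refine sup_le (fun F hF => ?_) (Ideal.span_le.mpr fun r hr => h r hr)
    have := (PP_sup 0 (C_le_P ht 0 (Ideal.mem_iInf.mp hF 0))).coeff_eq_zero
      (a := 0) (e := 0) (j := 0) (l := 0) (by omega)
    rwa [show vec 0 0 0 0 = 0 from vec_eta 0] at this
  simpa using h2 h1

theorem good_ne {t : ℕ} (ht : 1 ≤ t)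
    (hg : ∀ b : Fin 3 → k, ∃ c l m : k, ∀ r, b r = c + l * z r ^ (t - 1) + m * z r ^ t) :
    sSup (DS (J z t)) ≠ 1 := by
  have hc : ∀ r ∈ [(X 2 - X 3 : S k), X 0 + X 1 + X 2], constantCoeff r = 0 := by simp
  have h2 : 2 ∈ DS (J z t) := by
    refine ⟨[X 2 - X 3, X 0 + X 1 + X 2], rfl, hc, ⟨fun i hi => ?_⟩, top_ne _ _ (one_not ht hc)⟩
    rw [reg_iff]
    rcases i with _ | _ | i
    · simpa using reg_of_not (z := z) (t := t) th1_not
    · simpa using good_reg ht hg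
    · simp at hi
  intro h
  by_cases hb : BddAbove (DS (J z t))
  · have := le_csSup hb h2
    omega
  · rw [csSup_of_not_bddAbove hb] at h
    simp at h

theorem bad_eq (hz : Function.Injective z) {t : ℕ} (ht : 2 ≤ t)
    (hg : ff z * mon (t - 2) (4 * t - 1) 1 0 ∉ (I1 k t ⊓ I2 k t) ⊔ (K z t ⊓ I3 k t)) :
    sSup (DS (J z t)) = 1 := by
  have hc : ∀ r ∈ [(X 2 - X 3 : S k)], constantCoeff r = 0 := by simp
  refine IsGreatest.csSup_eq ⟨⟨[X 2 - X 3], rfl, hc, ⟨fun i hi => ?_⟩,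
    top_ne _ _ (one_not (by omega) hc)⟩, ?_⟩
  · rw [reg_iff]
    rcases i with _ | i
    · simpa using reg_of_not (z := z) (t := t) th1_not
    · simp at hi
  · rintro m ⟨rs, rfl, h0, h⟩
    by_contra hlt
    obtain ⟨θ₁, θ₂, rest, rfl⟩ : ∃ θ₁ θ₂ rest, rs = θ₁ :: θ₂ :: rest := by
      rcases rs with _ | ⟨θ₁, _ | ⟨θ₂, rest⟩⟩
      · simp at hlt
      · simp at hlt
      · exact ⟨_, _, _, rfl⟩
    have h1 := h.regular_mod_prev 0 (by simp)
    have h2 := h.regular_mod_prev 1 (by simp)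
    rw [reg_iff] at h1 h2
    exact bad_reg hz ht hg (h0 θ₁ (by simp)) (h0 θ₂ (by simp)) (by simpa using h1)
      (by simpa using h2)

abbrev kk := RatFunc (ZMod 3)

noncomputable def yy (r : Fin 3) : kk :=
  algebraMap (Polynomial (ZMod 3)) kk (Polynomial.X + Polynomial.C (r.1 : ZMod 3))

instance : CharP kk 3 := charP_of_injective_algebraMap (algebraMap (ZMod 3) kk).injective 3

theorem yy_ne (r : Fin 3) : yy r ≠ 0 :=
  (map_ne_zero_iff _ (IsFractionRing.injective _ _)).mpr (Polynomial.X_add_C_ne_zero _)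

theorem yy_eq (r : Fin 3) : yy r = yy 0 + (r.1 : kk) := by
  simp [yy]

theorem three : (3 : kk) = 0 := CharP.cast_eq_zero kk 3

theorem yy1 : yy 1 = yy 0 + 1 := by simpa using yy_eq 1
theorem yy2 : yy 2 = yy 0 + 2 := by simpa using yy_eq 2

theorem two_ne : (2 : kk) ≠ 0 := fun h => one_ne_zero (α := kk) (by linear_combination three - h)

theorem zz_inj : Function.Injective fun r => (yy r)⁻¹ := fun r r' h => by
  have h1 : yy r = yy r' := inv_injective h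
  rw [yy_eq r, yy_eq r', add_right_inj, CharP.natCast_eq_natCast kk 3] at h1
  exact Fin.ext (Nat.ModEq.eq_of_lt_of_lt h1 r.2 r'.2)

theorem sum_ne (m n : ℕ) (hn : 0 < n) (h : 2 * n < 3 ^ m) : ∑ r, yy r ^ (3 ^ m + 2 * n) ≠ 0 := by
  simp only [yy, ← map_pow, ← map_sum]
  refine (map_ne_zero_iff _ (IsFractionRing.injective _ _)).mpr fun h1 => ?_
  have h2 := congrArg (fun f => Polynomial.coeff f (0 + 3 ^ m)) h1
  have h3 : ∀ c : ZMod 3, ((Polynomial.X + Polynomial.C c) ^ (3 ^ m + 2 * n)).coeff (0 + 3 ^ m) =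
      c ^ (2 * n) := fun c => by
    rw [pow_add, add_pow_char_pow, add_mul, Polynomial.coeff_add, Polynomial.coeff_X_pow_mul,
      ← Polynomial.C_pow, Polynomial.coeff_C_mul, Polynomial.coeff_X_add_C_pow,
      Polynomial.coeff_X_add_C_pow, Nat.choose_eq_zero_of_lt (show 2 * n < 0 + 3 ^ m by omega)]
    simp
  simp only [Polynomial.coeff_add, h3, Fin.sum_univ_three, Polynomial.coeff_zero] at h2
  rw [pow_mul, pow_mul, pow_mul] at h2
  have h4 : (((2 : Fin 3).1 : ZMod 3) ^ 2) = 1 := by decide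
  rw [h4] at h2
  simp [hn.ne'] at h2
  exact absurd h2 (by decide)

theorem good_kk {t : ℕ} (ht : 1 ≤ t) (h : ∑ r, yy r ^ t ≠ 0) (b : Fin 3 → kk) :
    ∃ c l m : kk, ∀ r, b r = c + l * (yy r)⁻¹ ^ (t - 1) + m * (yy r)⁻¹ ^ t := by
  obtain ⟨s, rfl⟩ : ∃ s, t = s + 1 := ⟨t - 1, by omega⟩
  obtain ⟨c, hc⟩ : ∃ c, ∑ r, (b r - c) * yy r ^ (s + 1) = 0 :=
    ⟨(∑ r, b r * yy r ^ (s + 1)) / ∑ r, yy r ^ (s + 1), by
      simp only [sub_mul, Finset.sum_sub_distrib, ← Finset.mul_sum]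
      rw [div_mul_cancel₀ _ h, sub_self]⟩
  rw [Fin.sum_univ_three] at hc
  have key : ∀ r, (b r - c) * yy r ^ (s + 1) =
      ((b 1 - c) * yy 1 ^ (s + 1) - (b 0 - c) * yy 0 ^ (s + 1)) * (yy r - yy 0) +
        (b 0 - c) * yy 0 ^ (s + 1) := fun r => by
    fin_cases r
    · simp
    · simp only [Fin.mk_one]
      rw [show yy 1 - yy 0 = 1 by rw [yy1]; ring]
      ring
    · simp only [Fin.reduceFinMk]
      rw [show yy 2 - yy 0 = 2 by rw [yy2]; ring]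
      linear_combination hc - ((b 1 - c) * yy 1 ^ (s + 1)) * three
  refine ⟨c, (b 1 - c) * yy 1 ^ (s + 1) - (b 0 - c) * yy 0 ^ (s + 1), (b 0 - c) * yy 0 ^ (s + 1) -
    ((b 1 - c) * yy 1 ^ (s + 1) - (b 0 - c) * yy 0 ^ (s + 1)) * yy 0, fun r => ?_⟩
  have h0 := yy_ne r
  have h1 := key r
  generalize (b 1 - c) * yy 1 ^ (s + 1) - (b 0 - c) * yy 0 ^ (s + 1) = u at h1 ⊢
  generalize (b 0 - c) * yy 0 ^ (s + 1) = v at h1 ⊢
  rw [Nat.add_sub_cancel]
  have h2 : yy r * (yy r)⁻¹ = 1 := mul_inv_cancel₀ h0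
  have h3 : yy r ^ (s + 1) * (yy r)⁻¹ ^ (s + 1) = 1 := by rw [← mul_pow, h2, one_pow]
  linear_combination (yy r)⁻¹ ^ (s + 1) * h1 - (b r - c) * h3 + u * (yy r)⁻¹ ^ s * h2

theorem bad_kk (m : ℕ) (hm : 1 ≤ m) : ff (fun r => (yy r)⁻¹) * mon (3 ^ m - 2) (4 * 3 ^ m - 1) 1 0 ∉
    (I1 kk (3 ^ m) ⊓ I2 kk (3 ^ m)) ⊔ (K (fun r => (yy r)⁻¹) (3 ^ m) ⊓ I3 kk (3 ^ m)) := by
  have h1 : 3 ^ 1 ≤ 3 ^ m := Nat.pow_le_pow_right (by omega) hm
  have h2 : ∀ i, i ≤ 3 ^ m → ∑ r, yy r ^ 3 ^ m * (yy r)⁻¹ ^ (3 ^ m - i) = ∑ r, yy r ^ i :=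
    fun i hi => Finset.sum_congr rfl fun r _ => by
      have := yy_ne r
      rw [inv_pow, mul_inv_eq_iff_eq_mul₀ (pow_ne_zero _ this), ← pow_add, Nat.add_sub_cancel' hi]
  refine bad_not (by omega) (fun r => inv_ne_zero (yy_ne r)) (fun r => yy r ^ 3 ^ m) ?_ ?_ ?_ ?_
  · rw [← sum_pow_char_pow, Fin.sum_univ_three, yy1, yy2,
      show yy 0 + (yy 0 + 1) + (yy 0 + 2) = 0 by linear_combination (yy 0 + 1) * three,
      zero_pow (by omega)]
  · rw [h2 1 (by omega), Fin.sum_univ_three, yy1, yy2]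
    linear_combination (yy 0 + 1) * three
  · have := h2 0 (by omega)
    rw [Nat.sub_zero] at this
    rw [this, Fin.sum_univ_three]
    linear_combination three
  · rw [h2 2 (by omega), Fin.sum_univ_three, yy1, yy2]
    intro h
    exact two_ne (by linear_combination h - (yy 0 ^ 2 + 2 * yy 0 + 1) * three)

theorem main : ∃ (Q : Ideal (S kk)) (Qs : ℕ → Ideal (S kk)),
    (∀ p ∈ Q, ∀ d : ℕ, homogeneousComponent d p ∈ Q) ∧
    (∀ t : ℕ, ∀ f : S kk, f ∈ Qs t ↔ ∃ s : S kk, (∀ P ∈ Q.minimalPrimes, s ∉ P) ∧ s * f ∈ Q ^ t) ∧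
    ¬ ∃ p : ℕ, 0 < p ∧ ∃ N : ℕ, ∀ t : ℕ, N ≤ t → sSup (DS (Qs (t + p))) = sSup (DS (Qs t)) := by
  refine ⟨J (fun r => (yy r)⁻¹) 1, fun t => if t = 0 then ⊤ else J (fun r => (yy r)⁻¹) t,
    fun p hp d => J_hc hp d, fun t f => ?_, ?_⟩
  · by_cases ht : t = 0
    · simp only [ht, if_true, pow_zero, Ideal.one_eq_top, Submodule.mem_top, and_true, true_iff]
      exact ⟨1, fun P hP => (Ideal.ne_top_iff_one _).mp hP.1.1.ne_top⟩
    · simp only [if_neg ht]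
      exact symb zz_inj (by omega) f
  · rintro ⟨p, hp, N, h⟩
    have h1 : N + 2 * p + 1 < 3 ^ (N + 2 * p + 1) := Nat.lt_pow_self (by omega)
    generalize hm : N + 2 * p + 1 = m at h1
    have h2 := h (3 ^ m) (by omega)
    have h3 := h (3 ^ m + p) (by omega)
    rw [h2, add_assoc, ← two_mul] at h3
    simp only [if_neg (show 3 ^ m + 2 * p ≠ 0 by omega), if_neg (show 3 ^ m ≠ 0 by omega)] at h3
    rw [bad_eq zz_inj (by omega) (bad_kk m (by omega))] at h3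
    exact good_ne (by omega) (good_kk (by omega) (sum_ne m p hp (by omega))) h3

end Pool.Agent.H101Z.SD
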