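import Pool.Agent.H101Z.SD.Pinch

set_option autoImplicit false

namespace Pool.Agent.H101Z.SD

open MvPolynomial

variable {k : Type} [Field k] {z : Fin 3 → k}

theorem Prim.isPrime {P : Ideal (S k)} (h : Prim P P) (h1 : (1 : S k) ∉ P) : P.IsPrime :=
  ⟨(Ideal.ne_top_iff_one _).mpr h1, fun {x y} hxy => by
    by_cases hx : x ∈ P
    · exact Or.inl hx
    · exact Or.inr (h.2 x hx y hxy)⟩

variable (z) in
noncomputable def CC (t : ℕ) : Fin 4 → Ideal (S k) := ![K z t, I1 k t, I2 k t, I3 k t]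

variable (k) in
noncomputable def PP : Fin 4 → Ideal (S k) := ![Vm k 1, I1 k 1, P2 k 1, P3 k 1]

variable (k) in
noncomputable def ss : Fin 4 → S k := ![mon 0 0 1 1, mon 0 6 0 0, mon 6 0 0 1, mon 6 0 1 0]

variable (z) in
noncomputable def J (t : ℕ) : Ideal (S k) := ⨅ i, CC z t i

theorem mem_J {t : ℕ} {F : S k} :
    F ∈ J z t ↔ F ∈ K z t ∧ F ∈ I1 k t ∧ F ∈ I2 k t ∧ F ∈ I3 k t := by
  simp only [J, Ideal.mem_iInf, Fin.forall_fin_succ, CC]
  simp

theorem prim_C (t : ℕ) (i : Fin 4) : Prim (CC z t i) (PP k i) := by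
  fin_cases i
  exacts [prim_K t, prim_I1 t, prim_I2 t, prim_I3 t]

theorem mon_zero : (mon 0 0 0 0 : S k) = 1 := by simp [mon]

theorem PP_sup (i : Fin 4) {F : S k} (h : F ∈ PP k i) :
    Sup (fun a e j l => 1 ≤ a + e + j + l) F := by
  fin_cases i
  · exact (mem_Vm.mp h).mono (by intros; omega)
  · exact (mem_I1.mp h).mono (by intros; omega)
  · exact (mem_P2.mp h).mono (by intros; omega)
  · exact (mem_P3.mp h).mono (by intros; omega)

theorem prime_P (i : Fin 4) : (PP k i).IsPrime := by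
  refine Prim.isPrime ?_ fun h => ?_
  · fin_cases i
    exacts [prim_Vm 1, prim_I1 1, prim_P2, prim_P3]
  · have := PP_sup i h
    rw [← mon_zero] at this
    simpa using this.of_mon

theorem C_le_P {t : ℕ} (ht : 1 ≤ t) (i : Fin 4) : CC z t i ≤ PP k i := fun F h => by
  fin_cases i
  · exact mem_Vm.mpr ((mem_Vm.mp (mem_K.mp h).1).mono (by intros; omega))
  · exact mem_I1.mpr ((mem_I1.mp h).mono (by intros; omega))
  · exact mem_P2.mpr ((mem_I2.mp h).mono (by intros; omega))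
  · exact mem_P3.mpr ((mem_I3.mp h).mono (by intros; omega))

theorem C_pow (hz : Function.Injective z) {t : ℕ} (ht : 1 ≤ t) (i : Fin 4) :
    CC z 1 i ^ t = CC z t i := by
  fin_cases i
  exacts [K_pow hz ht, I1_pow t, I2_pow t, I3_pow t]

theorem ss_not (i : Fin 4) : ss k i ∉ PP k i := fun h => by
  fin_cases i
  · simpa using (mem_Vm.mp h).of_mon
  · simpa using (mem_I1.mp h).of_mon
  · simpa using (mem_P2.mp h).of_mon
  · simpa using (mem_P3.mp h).of_mon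

theorem ss_mem (i j : Fin 4) (h : i ≠ j) : ss k i ∈ CC z 1 j := by
  fin_cases i <;> fin_cases j <;> first
    | exact absurd rfl h
    | exact mon_mem_K _ _ (by omega)
    | exact mem_I1.mpr (Sup.mon (by omega))
    | exact mem_I2.mpr (Sup.mon (by omega))
    | exact mem_I3.mpr (Sup.mon (by omega))

theorem exists_P_le {P : Ideal (S k)} (hP : P.IsPrime) (h : J z 1 ≤ P) : ∃ i, PP k i ≤ P := by
  have h1 : Finset.univ.inf (CC z 1) ≤ P := by rwa [Finset.inf_univ_eq_iInf]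
  obtain ⟨i, -, hi⟩ := (Ideal.IsPrime.inf_le' hP).mp h1
  refine ⟨i, fun θ hθ => ?_⟩
  obtain ⟨N, hN⟩ := (prim_C (z := z) 1 i).1 θ hθ
  exact hP.mem_of_pow_mem N (hi hN)

theorem mem_min {P : Ideal (S k)} : P ∈ (J z 1).minimalPrimes ↔ ∃ i, P = PP k i := by
  have h0 : ∀ i, J z 1 ≤ PP k i := fun i => (iInf_le _ i).trans (C_le_P le_rfl i)
  constructor
  · intro h
    obtain ⟨i, hi⟩ := exists_P_le h.1.1 h.1.2
    exact ⟨i, le_antisymm (h.2 ⟨prime_P i, h0 i⟩ hi) hi⟩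
  · rintro ⟨i, rfl⟩
    refine ⟨⟨prime_P i, h0 i⟩, fun P hP hle => ?_⟩
    obtain ⟨j, hj⟩ := exists_P_le hP.1 hP.2
    by_cases hij : i = j
    · rwa [hij]
    · exact absurd (hle (hj (C_le_P (z := z) le_rfl j (ss_mem i j hij)))) (ss_not i)

theorem symb (hz : Function.Injective z) {t : ℕ} (ht : 1 ≤ t) (f : S k) : f ∈ J z t ↔
    ∃ s : S k, (∀ P ∈ (J z 1).minimalPrimes, s ∉ P) ∧ s * f ∈ J z 1 ^ t := by
  constructor
  · intro h
    refine ⟨∑ i, ss k i ^ t, fun P hP h1 => ?_, ?_⟩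
    · obtain ⟨i, rfl⟩ := mem_min.mp hP
      rw [← Finset.add_sum_erase _ _ (Finset.mem_univ i)] at h1
      have h2 : ∑ j ∈ Finset.univ.erase i, ss k j ^ t ∈ PP k i := Ideal.sum_mem _ fun j hj =>
        Ideal.pow_mem_of_mem _ (C_le_P (z := z) le_rfl i (ss_mem j i (Finset.ne_of_mem_erase hj))) _ ht
      exact ss_not i ((prime_P i).mem_of_pow_mem t (by simpa using sub_mem h1 h2))
    · rw [Finset.sum_mul]
      refine Ideal.sum_mem _ fun i _ => ?_
      have h1 : Ideal.span {ss k i} * CC z 1 i ≤ J z 1 := le_iInf fun j => by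
        by_cases hij : i = j
        · rw [← hij]; exact Ideal.mul_le_right
        · exact Ideal.mul_le_left.trans ((Ideal.span_singleton_le_iff_mem _).mpr (ss_mem i j hij))
      refine Ideal.pow_right_mono h1 t ?_
      rw [mul_pow, C_pow hz ht]
      exact Ideal.mul_mem_mul (Ideal.pow_mem_pow (Ideal.mem_span_singleton_self _) t)
        (Ideal.mem_iInf.mp h i)
  · rintro ⟨s, hs, h⟩
    refine Ideal.mem_iInf.mpr fun i => (prim_C t i).2 s (hs _ (mem_min.mpr ⟨i, rfl⟩)) f ?_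
    rw [← C_pow hz ht]
    exact Ideal.pow_right_mono (iInf_le _ i) t h

theorem reg_of_not {t : ℕ} {θ : S k} (h : ∀ i, θ ∉ PP k i) (F : S k) (hF : θ * F ∈ J z t) :
    F ∈ J z t :=
  Ideal.mem_iInf.mpr fun i => (prim_C t i).2 θ (h i) F (Ideal.mem_iInf.mp hF i)

theorem not_of_reg (hz : Function.Injective z) {t : ℕ} (ht : 1 ≤ t) {θ : S k}
    (h : ∀ F, θ * F ∈ J z t → F ∈ J z t) (i : Fin 4) : θ ∉ PP k i := fun hθ => by
  obtain ⟨N, hN⟩ := (prim_C (z := z) t i).1 θ hθ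
  have h1 : θ ^ N * ss k i ^ t ∈ J z t := Ideal.mem_iInf.mpr fun j => by
    by_cases hij : i = j
    · rw [← hij]; exact Ideal.mul_mem_right _ _ hN
    · rw [← C_pow hz ht]
      exact Ideal.mul_mem_left _ _ (Ideal.pow_mem_pow (ss_mem i j hij) t)
  have h2 : ss k i ^ t ∈ J z t := by
    clear hN
    induction N with
    | zero => simpa using h1
    | succ N ih => exact ih (h _ (by rwa [← mul_assoc, ← pow_succ']))
  exact ss_not i ((prime_P i).mem_of_pow_mem t (C_le_P ht i (Ideal.mem_iInf.mp h2 i)))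

theorem Sup.hc {p : Pr} {F : S k} (h : Sup p F) (n : ℕ) : Sup p (homogeneousComponent n F) :=
  fun d hd => h d (by
    rw [mem_support_iff, coeff_homogeneousComponent] at hd
    rw [mem_support_iff]
    intro h0
    simp [h0] at hd)

theorem hc_mon (c : k) (a e j l n : ℕ) : homogeneousComponent n (C c * mon a e j l) =
    if n = a + e + j + l then C c * mon a e j l else 0 := by
  refine homogeneousComponent_of_mem (m := n) (n := a + e + j + l) ?_
  rw [mon_eq]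
  refine isHomogeneous_monomial _ ?_
  rw [Finsupp.degree_eq_sum, Fin.sum_univ_four]
  rfl

theorem ev_hc (c : k) (n : ℕ) (F : S k) :
    ev c (homogeneousComponent n F) = homogeneousComponent n (ev c F) :=
  (Sup.triv F).ind (fun F => ev c (homogeneousComponent n F) = homogeneousComponent n (ev c F))
    (by simp) (fun _ _ h1 h2 => by simp only [map_add, h1, h2]) fun a e j l _ b => by
    rw [hc_mon, ev_cmon, hc_mon, zero_add]
    split_ifs
    · rw [ev_cmon]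
    · rw [map_zero]

theorem J_hc {t : ℕ} {F : S k} (h : F ∈ J z t) (n : ℕ) : homogeneousComponent n F ∈ J z t := by
  rw [mem_J, mem_K] at h ⊢
  refine ⟨⟨mem_Vm.mpr ((mem_Vm.mp h.1.1).hc n), fun r => ?_⟩, mem_I1.mpr ((mem_I1.mp h.2.1).hc n),
    mem_I2.mpr ((mem_I2.mp h.2.2.1).hc n), mem_I3.mpr ((mem_I3.mp h.2.2.2).hc n)⟩
  rw [ev_hc, ev_hc, ← map_sub]
  exact mem_Vy.mpr ((mem_Vy.mp (h.1.2 r)).hc n)

/-! ### the good exponents -/

noncomputable def rho : S k →ₐ[k] S k := aeval ![X 0, X 1, X 2, X 2]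

theorem rho_cmon (c : k) (a e j l : ℕ) : rho (C c * mon a e j l) = C c * mon a e (j + l) 0 := by
  simp only [rho, mon, map_mul, map_pow, aeval_X, aeval_C, algebraMap_eq]
  simp only [Matrix.cons_val_zero, Matrix.cons_val_one, Matrix.cons_val]
  ring

theorem Sup.rho {p q : Pr} {F : S k} (h : Sup p F) (hq : ∀ a e j l, p a e j l → q a e (j + l) 0) :
    Sup q (rho F) :=
  h.ind (fun F => Sup q (SD.rho F)) (by rw [map_zero]; exact Sup.zero) (fun _ _ h1 h2 => by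
    rw [map_add]; exact h1.add h2) fun a e j l hp c => by
    rw [rho_cmon]; exact Sup.cmon c (hq _ _ _ _ hp)

theorem ev_rho (c : k) (F : S k) : ev c (rho F) = rho (ev c F) :=
  (Sup.triv F).ind (fun F => ev c (rho F) = rho (ev c F)) (by simp)
    (fun _ _ h1 h2 => by simp only [map_add, h1, h2]) fun a e j l _ b => by
    rw [rho_cmon, ev_cmon, ev_cmon, rho_cmon]

theorem shift_mem (j l h : ℕ) (G : S k) :
    mon 0 0 (j + h) l * G - mon 0 0 j (l + h) * G ∈ Ideal.span {(X 2 - X 3 : S k)} := by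
  obtain ⟨c, hc⟩ := sub_dvd_pow_sub_pow (X 2 : S k) (X 3) h
  refine Ideal.mem_span_singleton.mpr ⟨c * mon 0 0 j l * G, ?_⟩
  simp only [mon]
  linear_combination (X 2 ^ j * X 3 ^ l * G) * hc

theorem rho_sub (F : S k) : rho F - F ∈ Ideal.span {(X 2 - X 3 : S k)} :=
  (Sup.triv F).ind (fun F => rho F - F ∈ Ideal.span {(X 2 - X 3 : S k)}) (by simp)
    (fun _ _ h1 h2 => by rw [map_add, add_sub_add_comm]; exact add_mem h1 h2) fun a e j l _ c => by
    have := shift_mem j 0 l (C c * mon a e 0 0 : S k)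
    rw [rho_cmon]
    convert this using 2 <;> simp only [mon] <;> ring

theorem key {t : ℕ} {E : S k} (hE : E ∈ K z t) (j l h : ℕ)
    (hs : Sup (fun a e _ _ => t ≤ a + j ∧ t ≤ e / 4 + j ∧ t ≤ e / 4 + h) E) :
    mon 0 0 (j + h) l * E ∈ J z t ⊔ Ideal.span {(X 2 - X 3 : S k)} := by
  have h7 : Sup (fun a₁ e₁ j₁ l₁ => a₁ = 0 ∧ e₁ = 0 ∧ j₁ = j ∧ l₁ = l + h)
    (mon 0 0 j (l + h) : S k) := Sup.mon ⟨rfl, rfl, rfl, rfl⟩
  have h6 : mon 0 0 j (l + h) * E ∈ J z t :=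
    mem_J.mpr ⟨Ideal.mul_mem_left _ _ hE, mem_I1.mpr (h7.mul hs (by intros; omega)),
      mem_I2.mpr (h7.mul hs (by intros; omega)), mem_I3.mpr (h7.mul hs (by intros; omega))⟩
  simpa using add_mem (Ideal.mem_sup_right (shift_mem j l h E)) (Ideal.mem_sup_left h6)

theorem good_B {t : ℕ} (ht : 1 ≤ t)
    (hg : ∀ b : Fin 3 → k, ∃ c l m : k, ∀ r, b r = c + l * z r ^ (t - 1) + m * z r ^ t)
    {G : S k} (hK : G ∈ K z t) (h1 : G ∈ I1 k t) (h4 : G ∈ I4 k (2 * t)) :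
    G ∈ J z t ⊔ Ideal.span {(X 2 - X 3 : S k)} := by
  have h5 : ∃ G', Sup (fun a e j _ => a + e = 5 * t ∧ a ≤ t ∧ t ≤ a + j) G' ∧
      G - G' ∈ J z t ⊔ Ideal.span {(X 2 - X 3 : S k)} ∧ G - G' ∈ K z t := by
    refine (((mem_Vm.mp (mem_K.mp hK).1).and (mem_I1.mp h1)).and (mem_I4.mp h4)).ind
      (fun G => ∃ G', Sup (fun a e j _ => a + e = 5 * t ∧ a ≤ t ∧ t ≤ a + j) G' ∧
        G - G' ∈ J z t ⊔ Ideal.span {(X 2 - X 3 : S k)} ∧ G - G' ∈ K z t)
      ⟨0, Sup.zero, by simp, by simp⟩ ?_ ?_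
    · rintro F F' ⟨G, h1, h2, h3⟩ ⟨G', h1', h2', h3'⟩
      refine ⟨G + G', h1.add h1', ?_, ?_⟩ <;> rw [add_sub_add_comm]
      exacts [add_mem h2 h2', add_mem h3 h3']
    · intro a e j l hp c
      obtain ⟨j', rfl⟩ : ∃ j', j = j' + (t - e / 4) := ⟨j - (t - e / 4), by omega⟩
      by_cases hd : 5 * t + 1 ≤ a + e
      · refine ⟨0, Sup.zero, ?_, by
          rw [sub_zero]; exact Ideal.mul_mem_left _ _ (mon_mem_K _ _ hd)⟩
        have := key (z := z) (E := C c * mon a e 0 0) (Ideal.mul_mem_left _ _ (mon_mem_K _ _ hd))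
          j' l (t - e / 4) (Sup.cmon c (by omega))
        convert this using 1
        simp only [mon]; ring
      · by_cases ha : a ≤ t
        · exact ⟨C c * mon a e (j' + (t - e / 4)) l, Sup.cmon c (by omega), by simp, by simp⟩
        · obtain ⟨c₀, lam, mu, hb⟩ := hg fun r => z r ^ a
          have hE : C c * mon a e 0 0 - C (c * lam) * mon (t - 1) (4 * t + 1) 0 0 -
              C (c * mu) * mon t (4 * t) 0 0 ∈ K z t := by
            refine mem_K.mpr ⟨mem_Vm.mpr (Sup.sub (Sup.sub (Sup.cmon _ (by omega))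
              (Sup.cmon _ (by omega))) (Sup.cmon _ (by omega))), fun r => ?_⟩
            have h6 : ∀ r, ev (z r) (C c * mon a e 0 0 - C (c * lam) * mon (t - 1) (4 * t + 1) 0 0 -
                C (c * mu) * mon t (4 * t) 0 0) = C (c * c₀) * mon 0 (5 * t) 0 0 := fun r => by
              rw [map_sub, map_sub, ev_cmon, ev_cmon, ev_cmon, show a + e = 5 * t by omega,
                show t - 1 + (4 * t + 1) = 5 * t by omega, show t + 4 * t = 5 * t by omega,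
                ← sub_mul, ← sub_mul, ← C_sub, ← C_sub, hb r]
              congr 2
              ring
            rw [h6, h6, sub_self]
            exact zero_mem _
          have h7 : C c * mon a e (j' + (t - e / 4)) l -
              (C (c * lam) * mon (t - 1) (4 * t + 1) (j' + (t - e / 4)) l +
                C (c * mu) * mon t (4 * t) (j' + (t - e / 4)) l) =
              mon 0 0 (j' + (t - e / 4)) l * (C c * mon a e 0 0 -
                C (c * lam) * mon (t - 1) (4 * t + 1) 0 0 - C (c * mu) * mon t (4 * t) 0 0 : S k) := by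
            simp only [mon]; ring
          refine ⟨C (c * lam) * mon (t - 1) (4 * t + 1) (j' + (t - e / 4)) l +
                C (c * mu) * mon t (4 * t) (j' + (t - e / 4)) l,
            (Sup.cmon (c * lam) (by omega)).add (Sup.cmon (c * mu) (by omega)),
            h7 ▸ key hE j' l (t - e / 4) (((Sup.cmon _ (by omega)).sub (Sup.cmon _ (by omega))).sub
              (Sup.cmon _ (by omega))), h7 ▸ Ideal.mul_mem_left _ _ hE⟩
  obtain ⟨G', h6, h7, h8⟩ := h5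
  have h9 : G' ∈ J z t := mem_J.mpr ⟨by simpa using sub_mem hK h8,
    mem_I1.mpr (h6.mono (by intros; omega)), mem_I2.mpr (h6.mono (by intros; omega)),
    mem_I3.mpr (h6.mono (by intros; omega))⟩
  simpa using add_mem h7 (Ideal.mem_sup_left h9)

theorem not_mem_of_coeff {p : Pr} {F : S k} {a e j l : ℕ} (h : coeff (vec a e j l) F ≠ 0)
    (hp : ¬ p a e j l) : ¬ Sup p F := fun h1 => h (h1.coeff_eq_zero hp)

theorem th1_not (i : Fin 4) : (X 2 - X 3 : S k) ∉ PP k i := by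
  have h : (X 2 - X 3 : S k) = C 1 * mon 0 0 1 0 - C 1 * mon 0 0 0 1 := by simp [mon]
  have h1 : coeff (vec 0 0 1 0) (X 2 - X 3 : S k) ≠ 0 := by
    rw [h, coeff_sub, coeff_mon, coeff_mon]; simp
  have h2 : coeff (vec 0 0 0 1) (X 2 - X 3 : S k) ≠ 0 := by
    rw [h, coeff_sub, coeff_mon, coeff_mon]; simp
  fin_cases i
  · exact fun h => not_mem_of_coeff h1 (by omega) (mem_Vm.mp h)
  · exact fun h => not_mem_of_coeff h2 (by omega) (mem_I1.mp h)
  · exact fun h => not_mem_of_coeff h2 (by omega) (mem_P2.mp h)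
  · exact fun h => not_mem_of_coeff h1 (by omega) (mem_P3.mp h)

theorem good_reg {t : ℕ} (ht : 1 ≤ t)
    (hg : ∀ b : Fin 3 → k, ∃ c l m : k, ∀ r, b r = c + l * z r ^ (t - 1) + m * z r ^ t) (G : S k)
    (h : (X 0 + X 1 + X 2) * G ∈ J z t ⊔ Ideal.span {(X 2 - X 3 : S k)}) :
    G ∈ J z t ⊔ Ideal.span {(X 2 - X 3 : S k)} := by
  obtain ⟨A, hA, B, hB, h⟩ := Submodule.mem_sup.mp h
  obtain ⟨B', rfl⟩ := Ideal.mem_span_singleton.mp hB
  have h1 : rho A = (X 0 + X 1 + X 2) * rho G := by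
    have := congrArg rho h
    simpa [rho] using this
  have h2 : (X 0 + X 1 + X 2 : S k) = C 1 * mon 1 0 0 0 + C 1 * mon 0 1 0 0 + C 1 * mon 0 0 1 0 := by
    simp [mon]
  have c0 : coeff (vec 1 0 0 0) (X 0 + X 1 + X 2 : S k) ≠ 0 := by
    rw [h2, coeff_add, coeff_add, coeff_mon, coeff_mon, coeff_mon]; simp
  have c1 : coeff (vec 0 1 0 0) (X 0 + X 1 + X 2 : S k) ≠ 0 := by
    rw [h2, coeff_add, coeff_add, coeff_mon, coeff_mon, coeff_mon]; simp
  have c2 : coeff (vec 0 0 1 0) (X 0 + X 1 + X 2 : S k) ≠ 0 := by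
    rw [h2, coeff_add, coeff_add, coeff_mon, coeff_mon, coeff_mon]; simp
  rw [mem_J, mem_K] at hA
  have h3 : rho G ∈ J z t ⊔ Ideal.span {(X 2 - X 3 : S k)} := by
    refine good_B ht hg ((prim_K t).2 _ (fun h => not_mem_of_coeff c2 (by omega) (mem_Vm.mp h)) _ ?_)
      ((prim_I1 t).2 _ (fun h => not_mem_of_coeff c1 (by omega) (mem_I1.mp h)) _ ?_)
      ((prim_I4 _).2 _ (fun h => not_mem_of_coeff c0 (by omega) (mem_P2.mp h)) _ ?_) <;> rw [← h1]
    · refine mem_K.mpr ⟨mem_Vm.mpr ((mem_Vm.mp hA.1.1).rho (by intros; omega)), fun r => ?_⟩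
      rw [ev_rho, ev_rho, ← map_sub]
      exact mem_Vy.mpr ((mem_Vy.mp (hA.1.2 r)).rho (by intros; omega))
    · exact mem_I1.mpr ((mem_I1.mp hA.2.1).rho (by intros; omega))
    · exact mem_I4.mpr (((mem_I2.mp hA.2.2.1).and (mem_I3.mp hA.2.2.2)).rho (by intros; omega))
  simpa using sub_mem h3 (Ideal.mem_sup_right (rho_sub G))

/-! ### the bad exponents -/

theorem bad_mul {t : ℕ} (ht : 2 ≤ t) {θ : S k} (hθ : constantCoeff θ = 0) :
    θ * (ff z * mon (t - 2) (4 * t - 1) 1 0) ∈ (I1 k t ⊓ I2 k t) ⊔ (K z t ⊓ I3 k t) := by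
  have hs : Sup (fun a e j l => t - 2 ≤ a ∧ 4 * t - 1 ≤ e ∧ a + e = 5 * t ∧ j = 1 ∧ l = 0)
      (ff z * mon (t - 2) (4 * t - 1) 1 0) :=
    (ff_sup z).mul (Sup.mon (p := fun a e j l => a = t - 2 ∧ e = 4 * t - 1 ∧ j = 1 ∧ l = 0)
      ⟨rfl, rfl, rfl, rfl⟩) (by intros; omega)
  have h1 : Sup (fun a e j l => 1 ≤ a + e + j + l) θ := fun d hd => by
    by_contra h
    have : d = 0 := by
      rw [← vec_eta d, show d 0 = 0 by omega, show d 1 = 0 by omega, show d 2 = 0 by omega,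
        show d 3 = 0 by omega]
      exact vec_eta 0
    exact mem_support_iff.mp hd (by rw [this]; exact hθ)
  refine h1.ind (fun θ => θ * (ff z * mon (t - 2) (4 * t - 1) 1 0) ∈
    (I1 k t ⊓ I2 k t) ⊔ (K z t ⊓ I3 k t)) (by simp)
    (fun _ _ h1 h2 => by rw [add_mul]; exact add_mem h1 h2) fun a e j l hp c => ?_
  have h2 : Sup (fun a' e' j' l' => a' = a ∧ e' = e ∧ j' = j ∧ l' = l) (C c * mon a e j l : S k) :=
    Sup.cmon c ⟨rfl, rfl, rfl, rfl⟩
  by_cases h3 : 1 ≤ a + e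
  · have h4 : Sup (fun a' e' j' _ => 4 * t - 1 ≤ e' ∧ 5 * t + 1 ≤ a' + e' ∧ 1 ≤ j')
      (C c * mon a e j l * (ff z * mon (t - 2) (4 * t - 1) 1 0)) := h2.mul hs (by intros; omega)
    obtain ⟨A, B, h5, hA, hB⟩ := h4.split fun a' _ _ _ => t - 1 ≤ a'
    rw [h5]
    exact add_mem (Ideal.mem_sup_left ⟨mem_I1.mpr (hA.mono (by intros; omega)),
      mem_I2.mpr (hA.mono (by intros; omega))⟩) (Ideal.mem_sup_right
      ⟨Vm_le_K t (mem_Vm.mpr (hB.mono (by intros; omega))), mem_I3.mpr (hB.mono (by intros; omega))⟩)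
  · by_cases h4 : 1 ≤ j
    · exact Ideal.mem_sup_left ⟨mem_I1.mpr (h2.mul hs (by intros; omega)),
        mem_I2.mpr (h2.mul hs (by intros; omega))⟩
    · exact Ideal.mem_sup_right ⟨Ideal.mul_mem_left _ _ (ff_mem_K _ _ (by omega)),
        mem_I3.mpr (h2.mul hs (by intros; omega))⟩

theorem bad_not {t : ℕ} (ht : 2 ≤ t) (hz : ∀ r, z r ≠ 0) (w : Fin 3 → k) (h0 : ∑ r, w r = 0)
    (h1 : ∑ r, w r * z r ^ (t - 1) = 0) (h2 : ∑ r, w r * z r ^ t = 0)
    (h3 : ∑ r, w r * z r ^ (t - 2) ≠ 0) :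
    ff z * mon (t - 2) (4 * t - 1) 1 0 ∉ (I1 k t ⊓ I2 k t) ⊔ (K z t ⊓ I3 k t) := by
  intro h
  obtain ⟨A, hA, B, hB, h⟩ := Submodule.mem_sup.mp h
  obtain ⟨s, rfl⟩ : ∃ s, t = s + 2 := ⟨t - 2, by omega⟩
  simp only [Nat.add_sub_cancel, show s + 2 - 1 = s + 1 from rfl,
    show 4 * (s + 2) - 1 = 4 * s + 7 by omega] at h h1 h3
  have hg : ff z * mon s (4 * s + 7) 1 0 = C 1 * mon (s + 3) (4 * s + 7) 1 0 +
      C (-(z 0 + z 1 + z 2)) * mon (s + 2) (4 * s + 8) 1 0 +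
      C (z 0 * z 1 + z 0 * z 2 + z 1 * z 2) * mon (s + 1) (4 * s + 9) 1 0 +
      C (-(z 0 * z 1 * z 2)) * mon s (4 * s + 10) 1 0 := by
    rw [ff_eq]; simp only [mon, C_1]; ring
  have h4 : ∀ a, a ≤ s → coeff (vec a (5 * (s + 2) - a) 1 0) B =
      if a = s then -(z 0 * z 1 * z 2) else 0 := fun a ha => by
    have h5 := congrArg (coeff (vec a (5 * (s + 2) - a) 1 0)) h
    rw [coeff_add, (mem_I1.mp hA.1).coeff_eq_zero (by omega), zero_add, hg] at h5
    rw [h5]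
    simp only [coeff_add, coeff_mon]
    rw [if_neg (by omega), if_neg (by omega), if_neg (by omega)]
    by_cases h6 : a = s
    · rw [if_pos h6, if_pos ⟨by omega, by omega, by trivial⟩]; simp
    · rw [if_neg h6, if_neg (by omega)]; simp
  have h6 : ∀ c : k, coeff (vec 0 (5 * (s + 2)) 1 0) (ev c B) = -(z 0 * z 1 * z 2) * c ^ s +
      coeff (vec (s + 1) (5 * (s + 2) - (s + 1)) 1 0) B * c ^ (s + 1) +
      coeff (vec (s + 2) (5 * (s + 2) - (s + 2)) 1 0) B * c ^ (s + 2) := fun c => by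
    rw [coeff_ev, show 5 * (s + 2) + 1 = s + 3 + (4 * s + 8) by ring, Finset.sum_range_add,
      Finset.sum_eq_zero (s := Finset.range (4 * s + 8)) fun x hx => by
        have := Finset.mem_range.mp hx
        rw [(mem_I3.mp hB.2).coeff_eq_zero (by omega), zero_mul],
      Finset.sum_range_succ, Finset.sum_range_succ, Finset.sum_range_succ,
      Finset.sum_eq_zero (s := Finset.range s) fun x hx => by
        have := Finset.mem_range.mp hx
        rw [h4 x (by omega), if_neg (by omega), zero_mul], h4 s le_rfl, if_pos rfl]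
    ring
  have h7 : ∀ r, coeff (vec 0 (5 * (s + 2)) 1 0) (ev (z r) B) =
      coeff (vec 0 (5 * (s + 2)) 1 0) (ev (z 0) B) := fun r => by
    have := (mem_Vy.mp ((mem_K.mp hB.1).2 r)).coeff_eq_zero (a := 0) (e := 5 * (s + 2)) (j := 1)
      (l := 0) (by omega)
    rwa [coeff_sub, sub_eq_zero] at this
  have h8 := h7 1
  have h9 := h7 2
  rw [h6, h6] at h8 h9
  simp only [Fin.sum_univ_three] at h0 h1 h2 h3
  refine mul_ne_zero (mul_ne_zero (mul_ne_zero (hz 0) (hz 1)) (hz 2)) h3 ?_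
  linear_combination (coeff (vec (s + 1) (5 * (s + 2) - (s + 1)) 1 0) B) * h1 +
    (coeff (vec (s + 2) (5 * (s + 2) - (s + 2)) 1 0) B) * h2 - w 1 * h8 - w 2 * h9 -
    (-(z 0 * z 1 * z 2) * z 0 ^ s + coeff (vec (s + 1) (5 * (s + 2) - (s + 1)) 1 0) B * z 0 ^ (s + 1) +
      coeff (vec (s + 2) (5 * (s + 2) - (s + 2)) 1 0) B * z 0 ^ (s + 2)) * h0

theorem bad_reg (hz : Function.Injective z) {t : ℕ} (ht : 2 ≤ t)
    (hg : ff z * mon (t - 2) (4 * t - 1) 1 0 ∉ (I1 k t ⊓ I2 k t) ⊔ (K z t ⊓ I3 k t))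
    {θ₁ θ₂ : S k} (h1 : constantCoeff θ₁ = 0) (h2 : constantCoeff θ₂ = 0)
    (hr1 : ∀ F, θ₁ * F ∈ J z t → F ∈ J z t)
    (hr2 : ∀ F, θ₂ * F ∈ J z t ⊔ Ideal.span {θ₁} → F ∈ J z t ⊔ Ideal.span {θ₁}) : False := by
  have hP := not_of_reg hz (by omega) hr1
  obtain ⟨A₁, hA₁, B₁, hB₁, e₁⟩ := Submodule.mem_sup.mp (bad_mul (z := z) ht h1)
  obtain ⟨A₂, hA₂, B₂, hB₂, e₂⟩ := Submodule.mem_sup.mp (bad_mul (z := z) ht h2)
  have h3 : θ₂ * B₁ - θ₁ * B₂ ∈ K z t ⊓ I3 k t :=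
    sub_mem (Ideal.mul_mem_left _ _ hB₁) (Ideal.mul_mem_left _ _ hB₂)
  have h4 : θ₂ * B₁ - θ₁ * B₂ ∈ I1 k t ⊓ I2 k t := by
    have : θ₂ * B₁ - θ₁ * B₂ = θ₁ * A₂ - θ₂ * A₁ := by linear_combination θ₂ * e₁ - θ₁ * e₂
    rw [this]
    exact sub_mem (Ideal.mul_mem_left _ _ hA₂) (Ideal.mul_mem_left _ _ hA₁)
  have h5 := hr2 B₁ (by
    simpa using add_mem (Ideal.mem_sup_left (mem_J.mpr ⟨h3.1, h4.1, h4.2, h3.2⟩))
      (Ideal.mem_sup_right (Ideal.mul_mem_right B₂ _ (Ideal.mem_span_singleton_self θ₁))))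
  obtain ⟨D, hD, E, hE, e₃⟩ := Submodule.mem_sup.mp h5
  obtain ⟨E', rfl⟩ := Ideal.mem_span_singleton.mp hE
  rw [mem_J] at hD
  have h6 : θ₁ * E' ∈ K z t ⊓ I3 k t := by
    rw [show θ₁ * E' = B₁ - D by rw [← e₃]; ring]
    exact sub_mem hB₁ ⟨hD.1, hD.2.2.2⟩
  have h7 : θ₁ * (ff z * mon (t - 2) (4 * t - 1) 1 0 - E') ∈ I1 k t ⊓ I2 k t := by
    rw [show θ₁ * (ff z * mon (t - 2) (4 * t - 1) 1 0 - E') = A₁ + D by
      linear_combination -e₁ - e₃]
    exact add_mem hA₁ ⟨hD.2.1, hD.2.2.1⟩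
  apply hg
  simpa using add_mem (Ideal.mem_sup_left (S := I1 k t ⊓ I2 k t) (T := K z t ⊓ I3 k t)
    ⟨(prim_I1 t).2 _ (hP 1) _ h7.1, (prim_I2 t).2 _ (hP 2) _ h7.2⟩)
    (Ideal.mem_sup_right ⟨(prim_K t).2 _ (hP 0) _ h6.1, (prim_I3 t).2 _ (hP 3) _ h6.2⟩)

end Pool.Agent.H101Z.SD
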