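import Pool.Agent.H101Z.SD.Sup

set_option autoImplicit false

namespace Pool.Agent.H101Z.SD

open MvPolynomial

variable {k : Type} [Field k]

noncomputable def ev (c : k) : S k →ₐ[k] S k := aeval ![C c * X 1, X 1, X 2, X 3]

theorem ev_mon (c : k) (a e j l : ℕ) : ev c (mon a e j l) = C (c ^ a) * mon 0 (a + e) j l := by
  simp only [ev, mon, map_mul, map_pow, aeval_X]
  simp only [Matrix.cons_val_zero, Matrix.cons_val_one, Matrix.cons_val]
  ring

theorem ev_cmon (c b : k) (a e j l : ℕ) :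
    ev c (C b * mon a e j l) = C (b * c ^ a) * mon 0 (a + e) j l := by
  rw [map_mul, ev_mon, algHom_C, algebraMap_eq, C_mul, mul_assoc]

theorem ev_Vm (c : k) {n : ℕ} {F : S k} (h : F ∈ Vm k n) : ev c F ∈ Vy k n :=
  (mem_Vm.mp h).ind (fun F => ev c F ∈ Vy k n) (by simp) (fun _ _ h1 h2 => by
    rw [map_add]; exact add_mem h1 h2) fun a e j l hp b => by
    rw [ev_cmon]; exact mem_Vy.mpr (Sup.cmon _ hp)

theorem ev_sub (c c' : k) (F : S k) : ev c F - ev c' F ∈ Vy k 1 :=
  (Sup.triv F).ind (fun F => ev c F - ev c' F ∈ Vy k 1) (by simp) (fun _ _ h1 h2 => by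
    rw [map_add, map_add, add_sub_add_comm]; exact add_mem h1 h2) fun a e j l _ b => by
    rw [ev_cmon, ev_cmon, ← sub_mul, ← C_sub]
    by_cases h : a = 0
    · simp [h]
    · exact mem_Vy.mpr (Sup.cmon _ (by omega))

theorem ev_free (c : k) {d : S k} (h : Sup (fun a e _ _ => a + e = 0) d) : ev c d = d :=
  h.ind (fun d => ev c d = d) (by simp) (fun _ _ h1 h2 => by rw [map_add, h1, h2])
    fun a e j l hp b => by
    obtain rfl : a = 0 := by omega
    rw [ev_cmon]; simp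

theorem coeff_ev (c : k) (n j l : ℕ) (F : S k) : coeff (vec 0 n j l) (ev c F) =
    ∑ a ∈ Finset.range (n + 1), coeff (vec a (n - a) j l) F * c ^ a :=
  (Sup.triv F).ind (fun F => coeff (vec 0 n j l) (ev c F) =
    ∑ a ∈ Finset.range (n + 1), coeff (vec a (n - a) j l) F * c ^ a) (by simp) (fun _ _ h1 h2 => by
    simp only [map_add, coeff_add, h1, h2, add_mul, Finset.sum_add_distrib])
    fun a e j' l' _ b => by
    rw [ev_cmon, coeff_mon]
    simp only [coeff_mon]
    by_cases h : a + e = n ∧ j' = j ∧ l' = l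
    · rw [if_pos ⟨trivial, h⟩, Finset.sum_eq_single a (fun x _ hx => by
        rw [if_neg (fun h => hx h.1.symm), zero_mul]) (fun h1 => absurd
        (Finset.mem_range.mpr (by omega)) h1), if_pos ⟨rfl, by omega, h.2⟩]
    · rw [if_neg (fun h1 => h h1.2), Finset.sum_eq_zero fun x hx => ?_]
      have := Finset.mem_range.mp hx
      rw [if_neg (fun h1 => h ⟨by omega, h1.2.2⟩), zero_mul]

theorem Vy_mul {m n : ℕ} {F G : S k} (h : F ∈ Vy k m) (h' : G ∈ Vy k n) : F * G ∈ Vy k (m + n) :=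
  mem_Vy.mpr ((mem_Vy.mp h).mul (mem_Vy.mp h') (by intros; omega))

theorem Vm_mul {m n : ℕ} {F G : S k} (h : F ∈ Vm k m) (h' : G ∈ Vm k n) : F * G ∈ Vm k (m + n) :=
  mem_Vm.mpr ((mem_Vm.mp h).mul (mem_Vm.mp h') (by intros; omega))

variable (z : Fin 3 → k)

/-- the pinched ideal -/
def K (t : ℕ) : Ideal (S k) where
  carrier := {F | F ∈ Vm k (5 * t) ∧ ∀ r, ev (z r) F - ev (z 0) F ∈ Vy k (5 * t + 1)}
  zero_mem' := Set.mem_ofPred.mpr ⟨zero_mem _, fun _ => by simp⟩
  add_mem' := fun h h' => Set.mem_ofPred.mpr ⟨add_mem (Set.mem_ofPred.mp h).1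
    (Set.mem_ofPred.mp h').1, fun r => by
      rw [map_add, map_add, add_sub_add_comm]
      exact add_mem ((Set.mem_ofPred.mp h).2 r) ((Set.mem_ofPred.mp h').2 r)⟩
  smul_mem' := fun G F h => Set.mem_ofPred.mpr ⟨Ideal.mul_mem_left _ _ (Set.mem_ofPred.mp h).1,
    fun r => by
      have h1 : ev (z r) (G • F) - ev (z 0) (G • F) = ev (z r) G * (ev (z r) F - ev (z 0) F) +
          ev (z 0) F * (ev (z r) G - ev (z 0) G) := by
        simp only [smul_eq_mul, map_mul]; ring
      rw [h1]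
      exact add_mem (Ideal.mul_mem_left _ _ ((Set.mem_ofPred.mp h).2 r))
        (Vy_mul (ev_Vm _ (Set.mem_ofPred.mp h).1) (ev_sub _ _ _))⟩

variable {z}

theorem mem_K {t : ℕ} {F : S k} : F ∈ K z t ↔
    F ∈ Vm k (5 * t) ∧ ∀ r, ev (z r) F - ev (z 0) F ∈ Vy k (5 * t + 1) := Set.mem_ofPred

theorem K_mul {s t : ℕ} {F G : S k} (h : F ∈ K z s) (h' : G ∈ K z t) : F * G ∈ K z (s + t) := by
  rw [mem_K] at h h' ⊢
  refine ⟨by rw [mul_add]; exact Vm_mul h.1 h'.1, fun r => ?_⟩
  have h1 : ev (z r) (F * G) - ev (z 0) (F * G) = ev (z r) F * (ev (z r) G - ev (z 0) G) +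
      ev (z 0) G * (ev (z r) F - ev (z 0) F) := by
    simp only [map_mul]; ring
  rw [h1]
  refine add_mem ?_ ?_
  · rw [show 5 * (s + t) + 1 = 5 * s + (5 * t + 1) by ring]
    exact Vy_mul (ev_Vm _ h.1) (h'.2 r)
  · rw [show 5 * (s + t) + 1 = 5 * t + (5 * s + 1) by ring]
    exact Vy_mul (ev_Vm _ h'.1) (h.2 r)

theorem Vm_le_K (t : ℕ) : Vm k (5 * t + 1) ≤ K z t := fun _ h =>
  mem_K.mpr ⟨mem_Vm.mpr ((mem_Vm.mp h).mono (by intros; omega)),
    fun _ => sub_mem (ev_Vm _ h) (ev_Vm _ h)⟩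

theorem mon_mem_K {t a e : ℕ} (j l : ℕ) (h : 5 * t + 1 ≤ a + e) : (mon a e j l : S k) ∈ K z t :=
  Vm_le_K t (mem_Vm.mpr (Sup.mon h))

theorem y_mem_K (t j l : ℕ) : (mon 0 (5 * t) j l : S k) ∈ K z t :=
  mem_K.mpr ⟨mem_Vm.mpr (Sup.mon (by omega)), fun r => by simp [ev_mon]⟩

theorem prim_K (t : ℕ) : Prim (K z t) (Vm k 1) :=
  prim_of _ _ (5 * t + 1) (Vm_le_K t) fun d hd hq F hF => by
    rw [mem_K] at hF ⊢
    refine ⟨mem_Vm.mpr (Sup.sat hd hq (by intros; omega) (mem_Vm.mp hF.1)), fun r =>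
      mem_Vy.mpr (Sup.sat hd hq (by intros; omega) ?_)⟩
    have := mem_Vy.mp (hF.2 r)
    rwa [map_mul, map_mul, ev_free _ hq, ev_free _ hq, ← mul_sub] at this

variable (z)

noncomputable def ff : S k :=
  (X 0 - C (z 0) * X 1) * (X 0 - C (z 1) * X 1) * (X 0 - C (z 2) * X 1)

theorem ff_eq : ff z = mon 3 0 0 0 + C (-(z 0 + z 1 + z 2)) * mon 2 1 0 0 +
    C (z 0 * z 1 + z 0 * z 2 + z 1 * z 2) * mon 1 2 0 0 + C (-(z 0 * z 1 * z 2)) * mon 0 3 0 0 := by
  simp only [ff, mon, map_neg, map_add, map_mul]; ring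

theorem ff_sup : Sup (fun a e j l => a + e = 3 ∧ j = 0 ∧ l = 0) (ff z) := by
  rw [ff_eq]
  exact (((Sup.mon (by omega)).add (Sup.cmon _ (by omega))).add (Sup.cmon _ (by omega))).add
    (Sup.cmon _ (by omega))

theorem ev_ff (r : Fin 3) : ev (z r) (ff z) = 0 := by
  fin_cases r <;> simp [ev, ff]

variable {z}

theorem ff_mem_K {t a e : ℕ} (j l : ℕ) (h : 5 * t ≤ a + e + 3) : ff z * mon a e j l ∈ K z t :=
  mem_K.mpr ⟨mem_Vm.mpr ((ff_sup z).mul (Sup.mon (p := fun a' e' _ _ => a' + e' = a + e) rfl)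
    (by intros; omega)), fun r => by simp [ev_ff]⟩

theorem red (A : Submodule k (S k)) (G : S k) (n j l : ℕ)
    (h1 : ∀ a e, a ≤ 2 → a + e = n → G * mon a e j l ∈ A)
    (h2 : ∀ a e, a + e + 3 = n → G * (ff z * mon a e j l) ∈ A) (a : ℕ) :
    ∀ e, a + e = n → G * mon a e j l ∈ A := by
  induction a using Nat.strong_induction_on with
  | _ a ih =>
    intro e he
    by_cases ha : a ≤ 2
    · exact h1 a e ha he
    · obtain ⟨b, rfl⟩ : ∃ b, a = b + 3 := ⟨a - 3, by omega⟩
      have h3 : G * mon (b + 3) e j l = G * (ff z * mon b e j l) +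
          (z 0 + z 1 + z 2) • (G * mon (b + 2) (e + 1) j l) -
          (z 0 * z 1 + z 0 * z 2 + z 1 * z 2) • (G * mon (b + 1) (e + 2) j l) +
          (z 0 * z 1 * z 2) • (G * mon b (e + 3) j l) := by
        simp only [ff, mon, smul_eq_C_mul, map_add, map_mul]; ring
      rw [h3]
      exact add_mem (sub_mem (add_mem (h2 b e (by omega)) (A.smul_mem _ (ih _ (by omega) _ (by omega))))
        (A.smul_mem _ (ih _ (by omega) _ (by omega)))) (A.smul_mem _ (ih _ (by omega) _ (by omega)))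

theorem K_succ_le (hz : Function.Injective z) {t : ℕ} (ht : 1 ≤ t) :
    K z (t + 1) ≤ K z t * K z 1 := by
  have h2 : ∀ a e j l, 5 * t + 2 ≤ a + e → ff z * mon a e j l ∈ K z t * K z 1 := by
    intro a e j l h
    refine red (z := z) ((K z t * K z 1).restrictScalars k) (ff z) (a + e) j l ?_ ?_ a e rfl
    · intro a' e' ha he
      obtain ⟨b, rfl⟩ : ∃ b, e' = 5 * t + b := ⟨e' - 5 * t, by omega⟩
      have : ff z * mon a' (5 * t + b) j l = mon 0 (5 * t) 0 0 * (ff z * mon a' b j l) := by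
        simp only [mon]; ring
      rw [Submodule.restrictScalars_mem, this]
      exact Ideal.mul_mem_mul (y_mem_K t 0 0) (ff_mem_K _ _ (by omega))
    · intro a' e' he
      obtain ⟨a₁, a₂, e₁, e₂, rfl, rfl, h3⟩ : ∃ a₁ a₂ e₁ e₂, a' = a₁ + a₂ ∧ e' = e₁ + e₂ ∧
          a₂ + e₂ = 2 := ⟨a' - min a' 2, min a' 2, e' - (2 - min a' 2), 2 - min a' 2, by omega⟩
      have : ff z * (ff z * mon (a₁ + a₂) (e₁ + e₂) j l) =
          (ff z * mon a₁ e₁ j l) * (ff z * mon a₂ e₂ 0 0) := by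
        simp only [mon]; ring
      rw [Submodule.restrictScalars_mem, this]
      exact Ideal.mul_mem_mul (ff_mem_K _ _ (by omega)) (ff_mem_K _ _ (by omega))
  have h1 : ∀ a e j l, 5 * t + 6 ≤ a + e → (mon a e j l : S k) ∈ K z t * K z 1 := by
    intro a e j l h
    have := red (z := z) ((K z t * K z 1).restrictScalars k) 1 (a + e) j l (fun a' e' ha he => by
      obtain ⟨b, rfl⟩ : ∃ b, e' = 5 * t + b := ⟨e' - 5 * t, by omega⟩
      have : (1 : S k) * mon a' (5 * t + b) j l = mon 0 (5 * t) 0 0 * mon a' b j l := by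
        simp only [mon]; ring
      rw [Submodule.restrictScalars_mem, this]
      exact Ideal.mul_mem_mul (y_mem_K t 0 0) (mon_mem_K _ _ (by omega)))
      (fun a' e' he => by
        rw [one_mul]; exact h2 _ _ _ _ (by omega)) a e rfl
    rwa [one_mul] at this
  let W : Submodule k (S k) :=
    { carrier := {R | Sup (fun a e _ _ => a ≤ 2 ∧ a + e = 5 * t + 5) R}
      zero_mem' := Set.mem_ofPred.mpr Sup.zero
      add_mem' := fun h h' => Set.mem_ofPred.mpr
        (Sup.add (Set.mem_ofPred.mp h) (Set.mem_ofPred.mp h'))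
      smul_mem' := fun c R h => Set.mem_ofPred.mpr (by
        rw [smul_eq_C_mul]; exact (Set.mem_ofPred.mp h).cmul c) }
  have hW : ∀ R, R ∈ W ↔ Sup (fun a e _ _ => a ≤ 2 ∧ a + e = 5 * t + 5) R :=
    fun R => Set.mem_ofPred
  intro F hF
  have h3 : F ∈ (K z t * K z 1).restrictScalars k ⊔ W := by
    refine (mem_Vm.mp (mem_K.mp hF).1).ind (· ∈ (K z t * K z 1).restrictScalars k ⊔ W)
      (zero_mem _) (fun _ _ => add_mem) fun a e j l hp c => ?_
    rw [← smul_eq_C_mul]
    refine Submodule.smul_mem _ _ ?_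
    by_cases h : 5 * t + 6 ≤ a + e
    · exact Submodule.mem_sup_left (h1 a e j l h)
    · have := red (z := z) ((K z t * K z 1).restrictScalars k ⊔ W) 1 (a + e) j l
        (fun a' e' ha he => by
          rw [one_mul]; exact Submodule.mem_sup_right ((hW _).mpr (Sup.mon (by omega))))
        (fun a' e' he => by
          rw [one_mul]; exact Submodule.mem_sup_left (h2 _ _ _ _ (by omega))) a e rfl
      rwa [one_mul] at this
  obtain ⟨G, hG, R, hR, rfl⟩ := Submodule.mem_sup.mp h3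
  refine add_mem hG ?_
  have hGK : G ∈ K z (t + 1) := Ideal.mul_le.mpr (fun _ h _ h' => K_mul h h') hG
  have hRK : R ∈ K z (t + 1) := by simpa using sub_mem hF hGK
  rw [hW] at hR
  have h4 : ∀ j l, coeff (vec 1 (5 * t + 4) j l) R = 0 ∧ coeff (vec 2 (5 * t + 3) j l) R = 0 := by
    intro j l
    have h5 : ∀ c : k, coeff (vec 0 (5 * t + 5) j l) (ev c R) = coeff (vec 0 (5 * t + 5) j l) R +
        coeff (vec 1 (5 * t + 4) j l) R * c + coeff (vec 2 (5 * t + 3) j l) R * c ^ 2 := fun c => by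
      rw [coeff_ev, show 5 * t + 5 + 1 = 3 + (5 * t + 3) by ring, Finset.sum_range_add,
        Finset.sum_eq_zero (s := Finset.range (5 * t + 3)) fun x _ => by
          rw [hR.coeff_eq_zero (by omega), zero_mul]]
      simp [Finset.sum_range_succ]
    have h6 : ∀ r, (z r - z 0) * (coeff (vec 1 (5 * t + 4) j l) R +
        coeff (vec 2 (5 * t + 3) j l) R * (z r + z 0)) = 0 := fun r => by
      have := (mem_Vy.mp ((mem_K.mp hRK).2 r)).coeff_eq_zero (a := 0) (e := 5 * t + 5) (j := j)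
        (l := l) (by omega)
      rw [coeff_sub, h5, h5] at this
      linear_combination this
    have h7 := (mul_eq_zero.mp (h6 1)).resolve_left (sub_ne_zero.mpr fun h => by simpa using hz h)
    have h8 := (mul_eq_zero.mp (h6 2)).resolve_left (sub_ne_zero.mpr fun h => by simpa using hz h)
    have h9 : coeff (vec 2 (5 * t + 3) j l) R * (z 1 - z 2) = 0 := by linear_combination h7 - h8
    have h10 := (mul_eq_zero.mp h9).resolve_right (sub_ne_zero.mpr fun h => by simpa using hz h)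
    rw [h10, zero_mul, add_zero] at h7
    exact ⟨h7, h10⟩
  have h11 : Sup (fun a e _ _ => a = 0 ∧ e = 5 * t + 5) R := fun d hd => by
    have h12 := hR d hd
    have h13 := h4 (d 2) (d 3)
    have h14 := mem_support_iff.mp hd
    rw [← vec_eta d] at h14
    by_cases h15 : d 0 = 1
    · rw [h15, show d 1 = 5 * t + 4 by omega] at h14
      exact absurd h13.1 h14
    · by_cases h16 : d 0 = 2
      · rw [h16, show d 1 = 5 * t + 3 by omega] at h14
        exact absurd h13.2 h14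
      · omega
  refine h11.ind (· ∈ K z t * K z 1) (zero_mem _) (fun _ _ => add_mem) ?_
  rintro _ _ j l ⟨rfl, rfl⟩ c
  have : (mon 0 (5 * t + 5) j l : S k) = mon 0 (5 * t) j l * mon 0 (5 * 1) 0 0 := by
    simp only [mon]; ring
  rw [this]
  exact Ideal.mul_mem_left _ _ (Ideal.mul_mem_mul (y_mem_K t j l) (y_mem_K 1 0 0))

theorem K_pow (hz : Function.Injective z) {t : ℕ} (ht : 1 ≤ t) : K z 1 ^ t = K z t := by
  induction t, ht using Nat.le_induction with
  | base => rw [pow_one]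
  | succ t ht ih =>
    rw [pow_succ, ih]
    exact le_antisymm (Ideal.mul_le.mpr fun _ h _ h' => K_mul h h') (K_succ_le hz ht)

end Pool.Agent.H101Z.SD
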