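import Mathlib

set_option autoImplicit false

namespace Pool.Agent.H101Z.SD

open MvPolynomial

variable {k : Type} [Field k]

abbrev S (k : Type) [Field k] := MvPolynomial (Fin 4) k

abbrev Pr := ℕ → ℕ → ℕ → ℕ → Prop

noncomputable def mon (a e j l : ℕ) : S k := X 0 ^ a * X 1 ^ e * X 2 ^ j * X 3 ^ l

noncomputable def vec (a e j l : ℕ) : Fin 4 →₀ ℕ := Finsupp.equivFunOnFinite.symm ![a, e, j, l]

@[simp] theorem vec0 (a e j l : ℕ) : vec a e j l 0 = a := rfl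
@[simp] theorem vec1 (a e j l : ℕ) : vec a e j l 1 = e := rfl
@[simp] theorem vec2 (a e j l : ℕ) : vec a e j l 2 = j := rfl
@[simp] theorem vec3 (a e j l : ℕ) : vec a e j l 3 = l := rfl

theorem vec_eta (d : Fin 4 →₀ ℕ) : vec (d 0) (d 1) (d 2) (d 3) = d := by
  ext i; fin_cases i <;> rfl

theorem vec_inj {a e j l a' e' j' l' : ℕ} :
    vec a e j l = vec a' e' j' l' ↔ a = a' ∧ e = e' ∧ j = j' ∧ l = l' :=
  ⟨fun h => ⟨congrArg (· 0) h, congrArg (· 1) h, congrArg (· 2) h, congrArg (· 3) h⟩,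
    fun ⟨h1, h2, h3, h4⟩ => by rw [h1, h2, h3, h4]⟩

theorem mon_eq (c : k) (a e j l : ℕ) : C c * mon a e j l = monomial (vec a e j l) c := by
  rw [monomial_eq, Finsupp.prod_fintype _ _ (by simp), Fin.prod_univ_four]
  rfl

theorem mon_mul (a e j l a' e' j' l' : ℕ) :
    (mon a e j l : S k) * mon a' e' j' l' = mon (a + a') (e + e') (j + j') (l + l') := by
  simp only [mon]; ring

theorem coeff_mon (c : k) (a e j l a' e' j' l' : ℕ) : coeff (vec a' e' j' l') (C c * mon a e j l) =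
    if a = a' ∧ e = e' ∧ j = j' ∧ l = l' then c else 0 := by
  classical
  rw [mon_eq, coeff_monomial]
  simp only [vec_inj]

def Sup (p : Pr) (F : S k) : Prop := ∀ d ∈ F.support, p (d 0) (d 1) (d 2) (d 3)

namespace Sup

variable {p q r : Pr} {F G : S k}

theorem zero : Sup p (0 : S k) := fun d hd => by simp at hd

theorem add (h : Sup p F) (h' : Sup p G) : Sup p (F + G) := fun d hd => by
  classical
  rcases Finset.mem_union.mp (support_add hd) with h1 | h1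
  exacts [h d h1, h' d h1]

theorem neg (h : Sup p F) : Sup p (-F) := fun d hd => h d (by simpa using hd)

theorem sub (h : Sup p F) (h' : Sup p G) : Sup p (F - G) := by
  rw [sub_eq_add_neg]; exact h.add h'.neg

theorem mono (h : Sup p F) (hp : ∀ a e j l, p a e j l → q a e j l) : Sup q F :=
  fun d hd => hp _ _ _ _ (h d hd)

theorem and (h : Sup p F) (h' : Sup q F) : Sup (fun a e j l => p a e j l ∧ q a e j l) F :=
  fun d hd => ⟨h d hd, h' d hd⟩

theorem triv (F : S k) : Sup (fun _ _ _ _ => True) F := fun _ _ => trivial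

theorem mul (h : Sup p F) (h' : Sup q G) (hr : ∀ a e j l a' e' j' l', p a e j l → q a' e' j' l' →
    r (a + a') (e + e') (j + j') (l + l')) : Sup r (F * G) := fun d hd => by
  classical
  obtain ⟨d1, h1, d2, h2, rfl⟩ := Finset.mem_add.mp (support_mul _ _ hd)
  exact hr _ _ _ _ _ _ _ _ (h d1 h1) (h' d2 h2)

theorem cmon {a e j l : ℕ} (c : k) (h : p a e j l) : Sup p (C c * mon a e j l) := fun d hd => by
  classical
  rw [mon_eq] at hd
  rw [Finset.mem_singleton.mp (support_monomial_subset hd)]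
  exact h

theorem mon {a e j l : ℕ} (h : p a e j l) : Sup p (mon a e j l : S k) := by
  simpa using cmon (1 : k) h

theorem of_mon {a e j l : ℕ} (h : Sup p (SD.mon a e j l : S k)) : p a e j l := by
  have h1 := coeff_mon (1 : k) a e j l a e j l
  rw [if_pos ⟨rfl, rfl, rfl, rfl⟩, C_1, one_mul] at h1
  exact h (vec a e j l) (mem_support_iff.mpr (by rw [h1]; exact one_ne_zero))

theorem cmul (c : k) (h : Sup p F) : Sup p (C c * F) := fun d hd =>
  h d (support_smul (by rwa [smul_eq_C_mul]))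

theorem ind (P : S k → Prop) (h0 : P 0) (hadd : ∀ F G, P F → P G → P (F + G))
    (hm : ∀ a e j l, p a e j l → ∀ c : k, P (C c * SD.mon a e j l)) (h : Sup p F) : P F := by
  rw [F.as_sum]
  refine Finset.sum_induction _ P hadd h0 fun d hd => ?_
  have := hm _ _ _ _ (h d hd) (coeff d F)
  rwa [mon_eq, vec_eta] at this

theorem split (h : Sup p F) (q : Pr) : ∃ F₁ F₂, F = F₁ + F₂ ∧
    Sup (fun a e j l => p a e j l ∧ q a e j l) F₁ ∧
    Sup (fun a e j l => p a e j l ∧ ¬ q a e j l) F₂ := by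
  refine h.ind (fun F => ∃ F₁ F₂, F = F₁ + F₂ ∧ Sup (fun a e j l => p a e j l ∧ q a e j l) F₁ ∧
    Sup (fun a e j l => p a e j l ∧ ¬ q a e j l) F₂) ⟨0, 0, by simp, zero, zero⟩ ?_ ?_
  · rintro _ _ ⟨F₁, F₂, rfl, h1, h2⟩ ⟨G₁, G₂, rfl, h3, h4⟩
    exact ⟨F₁ + G₁, F₂ + G₂, by ring, h1.add h3, h2.add h4⟩
  · intro a e j l hp c
    by_cases hq : q a e j l
    · exact ⟨_, 0, by simp, cmon c ⟨hp, hq⟩, zero⟩
    · exact ⟨0, _, by simp, zero, cmon c ⟨hp, hq⟩⟩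

theorem eq_zero (h : Sup p F) (hp : ∀ a e j l, ¬ p a e j l) : F = 0 := by
  by_contra h0
  obtain ⟨d, hd⟩ := support_nonempty.mpr h0
  exact hp _ _ _ _ (h d hd)

theorem coeff_eq_zero (h : Sup p F) {a e j l : ℕ} (hp : ¬ p a e j l) :
    coeff (vec a e j l) F = 0 := by
  by_contra h0
  exact hp (h _ (mem_support_iff.mpr h0))

theorem pow (w : ℕ → ℕ → ℕ → ℕ → ℕ) (hw : ∀ a e j l a' e' j' l', w a e j l + w a' e' j' l' ≤
    w (a + a') (e + e') (j + j') (l + l')) (h : Sup (fun a e j l => 1 ≤ w a e j l) F) (n : ℕ) :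
    Sup (fun a e j l => n ≤ w a e j l) (F ^ n) := by
  induction n with
  | zero => exact fun _ _ => Nat.zero_le _
  | succ n ih =>
    rw [pow_succ]
    exact ih.mul h fun a e j l a' e' j' l' h1 h2 => (Nat.add_le_add h1 h2).trans (hw _ _ _ _ _ _ _ _)

theorem sat {d : S k} (hd : d ≠ 0) (hq : Sup q d) (hp : ∀ a e j l a' e' j' l', q a e j l →
    (p (a + a') (e + e') (j + j') (l + l') ↔ p a' e' j' l')) (h : Sup p (d * F)) : Sup p F := by
  obtain ⟨F₁, F₂, rfl, h1, h2⟩ := (triv F).split p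
  have h3 : Sup p (d * F₁) := hq.mul h1 fun a e j l a' e' j' l' h4 h5 => (hp _ _ _ _ _ _ _ _ h4).mpr h5.2
  have h4 : Sup (fun a e j l => ¬ p a e j l) (d * F₂) :=
    hq.mul h2 fun a e j l a' e' j' l' h4 h5 h6 => h5.2 ((hp _ _ _ _ _ _ _ _ h4).mp h6)
  have h5 : Sup p (d * F₂) := by
    have := h.sub h3
    rwa [show d * (F₁ + F₂) - d * F₁ = d * F₂ by ring] at this
  have h6 : d * F₂ = 0 := (h5.and h4).eq_zero fun a e j l h => h.2 h.1
  rw [(mul_eq_zero.mp h6).resolve_left hd, add_zero]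
  exact h1.mono fun _ _ _ _ h => h.2

end Sup

/-- monomial ideal given by a weight function -/
def V (k : Type) [Field k] (w : ℕ → ℕ → ℕ → ℕ → ℕ) (hw : ∀ a e j l a' e' j' l',
    w a e j l + w a' e' j' l' ≤ w (a + a') (e + e') (j + j') (l + l')) (n : ℕ) : Ideal (S k) where
  carrier := {F | Sup (fun a e j l => n ≤ w a e j l) F}
  zero_mem' := Set.mem_ofPred.mpr Sup.zero
  add_mem' := fun h h' => Set.mem_ofPred.mpr (Sup.add (Set.mem_ofPred.mp h) (Set.mem_ofPred.mp h'))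
  smul_mem' := fun G _ h => Set.mem_ofPred.mpr ((Sup.triv G).mul (Set.mem_ofPred.mp h)
    fun _ _ _ _ _ _ _ _ _ h2 => (h2.trans (Nat.le_add_left _ _)).trans (hw _ _ _ _ _ _ _ _))

theorem mem_V {w : ℕ → ℕ → ℕ → ℕ → ℕ} {hw : ∀ a e j l a' e' j' l',
    w a e j l + w a' e' j' l' ≤ w (a + a') (e + e') (j + j') (l + l')} {n : ℕ} {F : S k} :
    F ∈ V k w hw n ↔ Sup (fun a e j l => n ≤ w a e j l) F := Set.mem_ofPred

theorem V_pow (w : ℕ → ℕ → ℕ → ℕ → ℕ) (hw : ∀ a e j l a' e' j' l',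
    w a e j l + w a' e' j' l' ≤ w (a + a') (e + e') (j + j') (l + l'))
    (hs : ∀ n a e j l, n + 1 ≤ w a e j l → ∃ a₁ e₁ j₁ l₁ a₂ e₂ j₂ l₂, a = a₁ + a₂ ∧ e = e₁ + e₂ ∧
      j = j₁ + j₂ ∧ l = l₁ + l₂ ∧ n ≤ w a₁ e₁ j₁ l₁ ∧ 1 ≤ w a₂ e₂ j₂ l₂) (n : ℕ) :
    V k w hw 1 ^ n = V k w hw n := by
  induction n with
  | zero =>
    rw [pow_zero, Ideal.one_eq_top, eq_comm, Ideal.eq_top_iff_one]
    exact mem_V.mpr fun _ _ => Nat.zero_le _
  | succ n ih =>
    rw [pow_succ, ih]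
    refine le_antisymm (Ideal.mul_le.mpr fun F hF G hG => mem_V.mpr (Sup.mul (mem_V.mp hF)
      (mem_V.mp hG)
      fun a e j l a' e' j' l' h1 h2 => (Nat.add_le_add h1 h2).trans (hw _ _ _ _ _ _ _ _)))
      fun F hF => Sup.ind (· ∈ V k w hw n * V k w hw 1) (zero_mem _) (fun _ _ => add_mem) ?_
        (mem_V.mp hF)
    intro a e j l h c
    obtain ⟨a₁, e₁, j₁, l₁, a₂, e₂, j₂, l₂, rfl, rfl, rfl, rfl, h1, h2⟩ := hs n a e j l h
    rw [← mon_mul]
    exact Ideal.mul_mem_left _ _ (Ideal.mul_mem_mul (mem_V.mpr (Sup.mon h1)) (mem_V.mpr (Sup.mon h2)))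

/-- `I` is `P`-primary, in elementary terms -/
def Prim (I P : Ideal (S k)) : Prop :=
  (∀ θ ∈ P, ∃ N, θ ^ N ∈ I) ∧ ∀ s, s ∉ P → ∀ F, s * F ∈ I → F ∈ I

theorem prim_of {I : Ideal (S k)} (w : ℕ → ℕ → ℕ → ℕ → ℕ) (hw : ∀ a e j l a' e' j' l',
    w a e j l + w a' e' j' l' ≤ w (a + a') (e + e') (j + j') (l + l')) (N : ℕ)
    (hN : V k w hw N ≤ I)
    (hsat : ∀ d : S k, d ≠ 0 → Sup (fun a e j l => w a e j l = 0) d → ∀ F, d * F ∈ I → F ∈ I) :
    Prim I (V k w hw 1) := by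
  refine ⟨fun θ hθ => ⟨N, hN (mem_V.mpr (Sup.pow w hw (mem_V.mp hθ) N))⟩, fun s hs F hF => ?_⟩
  obtain ⟨d, n, rfl, h1, h2⟩ := (Sup.triv s).split fun a e j l => w a e j l = 0
  have hn : n ∈ V k w hw 1 := mem_V.mpr (h2.mono fun a e j l h => Nat.pos_of_ne_zero h.2)
  have hd : d ≠ 0 := by
    rintro rfl
    exact hs (by rwa [zero_add])
  have h3 : d ^ N * F ∈ I := by
    obtain ⟨c, hc⟩ := sub_dvd_pow_sub_pow d (-n) N
    have h4 : d ^ N * F = c * ((d + n) * F) + (-n) ^ N * F := by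
      rw [sub_neg_eq_add] at hc
      linear_combination F * hc
    rw [h4]
    exact add_mem (Ideal.mul_mem_left _ _ hF)
      (Ideal.mul_mem_right _ _ (hN (mem_V.mpr (Sup.pow w hw (Sup.neg (mem_V.mp hn)) N))))
  clear hN
  induction N with
  | zero => simpa using h3
  | succ N ih =>
    refine ih (hsat d hd (h1.mono fun _ _ _ _ h => h.2) _ ?_)
    rwa [← mul_assoc, ← pow_succ']

theorem prim_V (w : ℕ → ℕ → ℕ → ℕ → ℕ) (hw : ∀ a e j l a' e' j' l',
    w a e j l + w a' e' j' l' ≤ w (a + a') (e + e') (j + j') (l + l'))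
    (w' : ℕ → ℕ → ℕ → ℕ → ℕ) (hw' : ∀ a e j l a' e' j' l',
    w' a e j l + w' a' e' j' l' ≤ w' (a + a') (e + e') (j + j') (l + l')) (n N : ℕ)
    (h1 : ∀ a e j l, N ≤ w a e j l → n ≤ w' a e j l)
    (h2 : ∀ a e j l a' e' j' l', w a e j l = 0 →
      w' (a + a') (e + e') (j + j') (l + l') = w' a' e' j' l') :
    Prim (V k w' hw' n) (V k w hw 1) :=
  prim_of w hw N (fun _ hF => mem_V.mpr (Sup.mono (mem_V.mp hF) h1)) fun _ hd hq _ hF =>
    mem_V.mpr (Sup.sat hd hq (fun a e j l a' e' j' l' h => by rw [h2 _ _ _ _ _ _ _ _ h])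
      (mem_V.mp hF))

def Vm (k : Type) [Field k] := V k (fun a e _ _ => a + e) (by intros; omega)
def Vy (k : Type) [Field k] := V k (fun _ e _ _ => e) (by intros; omega)
def I1 (k : Type) [Field k] := V k (fun a _ j _ => a + j) (by intros; omega)
def I2 (k : Type) [Field k] := V k (fun _ e j _ => e / 4 + j) (by intros; omega)
def I3 (k : Type) [Field k] := V k (fun _ e _ l => e / 4 + l) (by intros; omega)
def I4 (k : Type) [Field k] := V k (fun _ e j _ => 2 * (e / 4) + j) (by intros; omega)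
def P2 (k : Type) [Field k] := V k (fun _ e j _ => e + j) (by intros; omega)
def P3 (k : Type) [Field k] := V k (fun _ e _ l => e + l) (by intros; omega)

theorem mem_Vm {n : ℕ} {F : S k} : F ∈ Vm k n ↔ Sup (fun a e _ _ => n ≤ a + e) F := mem_V
theorem mem_Vy {n : ℕ} {F : S k} : F ∈ Vy k n ↔ Sup (fun _ e _ _ => n ≤ e) F := mem_V
theorem mem_I1 {n : ℕ} {F : S k} : F ∈ I1 k n ↔ Sup (fun a _ j _ => n ≤ a + j) F := mem_V
theorem mem_I2 {n : ℕ} {F : S k} : F ∈ I2 k n ↔ Sup (fun _ e j _ => n ≤ e / 4 + j) F := mem_V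
theorem mem_I3 {n : ℕ} {F : S k} : F ∈ I3 k n ↔ Sup (fun _ e _ l => n ≤ e / 4 + l) F := mem_V
theorem mem_I4 {n : ℕ} {F : S k} : F ∈ I4 k n ↔ Sup (fun _ e j _ => n ≤ 2 * (e / 4) + j) F := mem_V
theorem mem_P2 {n : ℕ} {F : S k} : F ∈ P2 k n ↔ Sup (fun _ e j _ => n ≤ e + j) F := mem_V
theorem mem_P3 {n : ℕ} {F : S k} : F ∈ P3 k n ↔ Sup (fun _ e _ l => n ≤ e + l) F := mem_V

theorem I1_pow (n : ℕ) : I1 k 1 ^ n = I1 k n := V_pow _ _ (fun n a e j l h => by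
  by_cases h0 : a = 0
  · exact ⟨a, e, j - 1, l, 0, 0, 1, 0, by omega⟩
  · exact ⟨a - 1, e, j, l, 1, 0, 0, 0, by omega⟩) n

theorem I2_pow (n : ℕ) : I2 k 1 ^ n = I2 k n := V_pow _ _ (fun n a e j l h => by
  by_cases h0 : j = 0
  · exact ⟨a, e - 4, j, l, 0, 4, 0, 0, by omega⟩
  · exact ⟨a, e, j - 1, l, 0, 0, 1, 0, by omega⟩) n

theorem I3_pow (n : ℕ) : I3 k 1 ^ n = I3 k n := V_pow _ _ (fun n a e j l h => by
  by_cases h0 : l = 0
  · exact ⟨a, e - 4, j, l, 0, 4, 0, 0, by omega⟩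
  · exact ⟨a, e, j, l - 1, 0, 0, 0, 1, by omega⟩) n

theorem prim_Vm (n : ℕ) : Prim (Vm k n) (Vm k 1) :=
  prim_V _ _ _ _ n n (by intros; omega) (by intros; omega)
theorem prim_I1 (n : ℕ) : Prim (I1 k n) (I1 k 1) :=
  prim_V _ _ _ _ n n (by intros; omega) (by intros; omega)
theorem prim_I2 (n : ℕ) : Prim (I2 k n) (P2 k 1) :=
  prim_V _ _ _ _ n (4 * n) (by intros; omega) (by intros; omega)
theorem prim_I3 (n : ℕ) : Prim (I3 k n) (P3 k 1) :=
  prim_V _ _ _ _ n (4 * n) (by intros; omega) (by intros; omega)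
theorem prim_I4 (n : ℕ) : Prim (I4 k n) (P2 k 1) :=
  prim_V _ _ _ _ n (4 * n) (by intros; omega) (by intros; omega)
theorem prim_P2 : Prim (P2 k 1) (P2 k 1) :=
  prim_V _ _ _ _ 1 1 (by intros; omega) (by intros; omega)
theorem prim_P3 : Prim (P3 k 1) (P3 k 1) :=
  prim_V _ _ _ _ 1 1 (by intros; omega) (by intros; omega)

end Pool.Agent.H101Z.SD
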